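import Pool.Agent.K1H76.DK.Stm

/-!
# Project DK: the sum of `1 / lcm` is at most an Euler product
-/

namespace Pool.Agent.K1H21.DK

open Finset Pool.Agent.K1H76.DK

/-- the multiplicative function `τ(L)^m / L` -/
noncomputable def ff (m L : ℕ) : ℝ := (L.divisors.card : ℝ) ^ m / L

lemma ff_one (m : ℕ) : ff m 1 = 1 := by simp [ff]

lemma ff_mul (m : ℕ) {a b : ℕ} (h : Nat.Coprime a b) : ff m (a * b) = ff m a * ff m b := by
  unfold ff
  rw [h.card_divisors_mul]
  push_cast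
  rw [mul_pow, mul_div_mul_comm]

lemma ff_pow (m : ℕ) {p : ℕ} (hp : p.Prime) (e : ℕ) :
    ff m (p ^ e) = ((e : ℝ) + 1) ^ m / (p : ℝ) ^ e := by
  unfold ff
  rw [Nat.divisors_prime_pow hp, card_map, card_range]
  push_cast
  rfl

lemma ff_nonneg (m L : ℕ) : 0 ≤ ff m L := by unfold ff; positivity

lemma ff_sum (m : ℕ) {p : ℕ} (hp : p.Prime) : Summable (fun e : ℕ => ‖ff m (p ^ e)‖) := by
  have hp1 : (1 : ℝ) < p := by exact_mod_cast hp.one_lt
  have hp0 : (0 : ℝ) < p := by linarith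
  have h1 : ‖(p : ℝ)⁻¹‖ < 1 := by
    rw [norm_inv, Real.norm_of_nonneg hp0.le]
    exact inv_lt_one_of_one_lt₀ hp1
  have h2 := summable_pow_mul_geometric_of_norm_lt_one m h1
  have h3 := ((summable_nat_add_iff 1).2 h2).mul_right (p : ℝ)
  refine h3.congr fun e => ?_
  rw [Real.norm_of_nonneg (ff_nonneg _ _), ff_pow m hp]
  push_cast
  rw [pow_succ, div_eq_mul_inv, inv_pow]
  field_simp

lemma lcm_dvd_prod {m : ℕ} (j : Fin m → ℕ) : univ.lcm j ∣ ∏ i, j i :=
  Finset.lcm_dvd fun i _ => Finset.dvd_prod_of_mem j (mem_univ i)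

theorem t_LCM : S_LCM := by
  classical
  intro m Y
  have hsum := EulerProduct.summable_and_hasSum_smoothNumbers_prod_primesBelow_tsum
    (f := ff m) (ff_one m) (fun {a b} h => ff_mul m h) (fun {p} hp => ff_sum m hp) (Y + 1)
  have hprod : ∏ p ∈ (Icc 1 Y).filter Nat.Prime, ∑' e : ℕ, ((e : ℝ) + 1) ^ m / (p : ℝ) ^ e =
      ∏ p ∈ (Y + 1).primesBelow, ∑' e : ℕ, ff m (p ^ e) := by
    have hset : (Icc 1 Y).filter Nat.Prime = (Y + 1).primesBelow := by
      ext p
      rw [mem_filter, mem_Icc, Nat.mem_primesBelow]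
      constructor
      · rintro ⟨⟨_, h2⟩, h3⟩; exact ⟨by omega, h3⟩
      · rintro ⟨h2, h3⟩; exact ⟨⟨h3.one_le, by omega⟩, h3⟩
    rw [hset]
    refine prod_congr rfl fun p hp => ?_
    have hpp := (Nat.mem_primesBelow.1 hp).2
    exact tsum_congr fun e => (ff_pow m hpp e).symm
  rw [hprod]
  let Q : Finset (Fin m → ℕ) := Fintype.piFinset (fun _ : Fin m => Icc 1 Y)
  let S : Finset ℕ := Q.image (fun j => univ.lcm j)
  have hQ : ∀ j ∈ Q, ∀ i, 1 ≤ j i ∧ j i ≤ Y := by
    intro j hj i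
    exact mem_Icc.1 (Fintype.mem_piFinset.1 hj i)
  have hne : ∀ j ∈ Q, univ.lcm j ≠ 0 := by
    intro j hj
    refine ne_zero_of_dvd_ne_zero ?_ (lcm_dvd_prod j)
    exact Finset.prod_ne_zero_iff.2 fun i _ => by have := (hQ j hj i).1; omega
  have hS : ∀ L ∈ S, L ∈ (Y + 1).smoothNumbers := by
    intro L hL
    obtain ⟨j, hj, rfl⟩ := mem_image.1 hL
    rw [Nat.mem_smoothNumbers]
    refine ⟨hne j hj, fun p hp => ?_⟩
    have hpp := Nat.prime_of_mem_primeFactorsList hp
    have hpd := (Nat.dvd_of_mem_primeFactorsList hp).trans (lcm_dvd_prod j)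
    obtain ⟨i, _, hi⟩ := (Prime.dvd_finsetProd_iff hpp.prime j).1 hpd
    have h1 := hQ j hj i
    have := Nat.le_of_dvd (by omega) hi
    omega
  have h1 : M m Y ≤ ∑ L ∈ S, ff m L := by
    have hmap : ∀ j ∈ Q, univ.lcm j ∈ S := fun j hj => mem_image_of_mem _ hj
    have e1 : M m Y = ∑ L ∈ S, ∑ j ∈ Q.filter (fun j => univ.lcm j = L),
        (1 : ℝ) / ((univ.lcm j : ℕ) : ℝ) := (sum_fiberwise_of_maps_to hmap _).symm
    rw [e1]
    refine sum_le_sum fun L hL => ?_
    have hL0 : L ≠ 0 := by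
      obtain ⟨j, hj, rfl⟩ := mem_image.1 hL
      exact hne j hj
    have e2 : ∑ j ∈ Q.filter (fun j => univ.lcm j = L), (1 : ℝ) / ((univ.lcm j : ℕ) : ℝ) =
        ((Q.filter (fun j => univ.lcm j = L)).card : ℝ) * (1 / L) := by
      rw [← nsmul_eq_mul, ← sum_const]
      refine sum_congr rfl fun j hj => ?_
      rw [(mem_filter.1 hj).2]
    rw [e2]
    have e3 : (Q.filter (fun j => univ.lcm j = L)).card ≤ L.divisors.card ^ m := by
      have hsub : Q.filter (fun j => univ.lcm j = L) ⊆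
          Fintype.piFinset (fun _ : Fin m => L.divisors) := by
        intro j hj
        rw [Fintype.mem_piFinset]
        intro i
        rw [Nat.mem_divisors]
        refine ⟨?_, hL0⟩
        rw [← (mem_filter.1 hj).2]
        exact Finset.dvd_lcm (mem_univ i)
      refine (card_le_card hsub).trans (le_of_eq ?_)
      rw [Fintype.card_piFinset, prod_const, card_univ, Fintype.card_fin]
    unfold ff
    rw [mul_one_div]
    have e4 : ((Q.filter (fun j => univ.lcm j = L)).card : ℝ) ≤ (L.divisors.card : ℝ) ^ m := by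
      exact_mod_cast e3
    exact div_le_div_of_nonneg_right e4 (Nat.cast_nonneg _)
  refine h1.trans ?_
  have h2 := sum_le_hasSum (S.subtype (fun L => L ∈ (Y + 1).smoothNumbers))
    (fun i _ => ff_nonneg m i) hsum.2
  refine le_trans (le_of_eq ?_) h2
  exact (Finset.sum_subtype_of_mem (fun L => ff m L) hS).symm

end Pool.Agent.K1H21.DK
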